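import Pool.Agent.MNW.StmtsT

set_option autoImplicit false

/-!
# MNW, rows IDD, IDU (helper49)
-/

namespace Pool.Agent.MNW.H49

open Pool.Agent.MNT Pool.Agent.MNW
open scoped Classical

variable {V : Type} [Fintype V] [PartialOrder V] [OrderTop V]

theorem mem_kids (T : MNT.Tree V) (v c : V) : c ∈ T.kids v ↔ c ≠ ⊤ ∧ T.par c = v := by
  unfold MNT.Tree.kids
  rw [Finset.mem_filter]
  exact ⟨fun h => h.2, fun h => ⟨Finset.mem_univ _, h⟩⟩

theorem kid_lt (T : MNT.Tree V) {v c : V} (h : c ∈ T.kids v) : c < v := by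
  obtain ⟨h1, h2⟩ := (mem_kids T v c).1 h
  rw [← h2]
  exact T.lt_par c h1

/-- The elements above a given one form a chain. -/
theorem chain (T : MNT.Tree V) : ∀ d c c' : V, d ≤ c → d ≤ c' → c ≤ c' ∨ c' ≤ c := by
  intro d
  induction d using (wellFounded_gt (α := V)).induction with
  | _ d ih =>
    intro c c' h h'
    rcases eq_or_lt_of_le h with rfl | h1
    · exact Or.inl h'
    rcases eq_or_lt_of_le h' with rfl | h2
    · exact Or.inr h
    have hd : d ≠ ⊤ := fun hd => absurd h1 (by rw [hd]; exact not_top_lt)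
    exact ih (T.par d) (T.lt_par d hd) c c' (T.par_le d c h1) (T.par_le d c' h2)

theorem exists_kid (T : MNT.Tree V) (v : V) : ∀ d : V, d < v → ∃ c ∈ T.kids v, d ≤ c := by
  intro d
  induction d using (wellFounded_gt (α := V)).induction with
  | _ d ih =>
    intro h
    have hd : d ≠ ⊤ := fun hd => absurd h (by rw [hd]; exact not_top_lt)
    rcases eq_or_lt_of_le (T.par_le d v h) with h1 | h1
    · exact ⟨d, (mem_kids T v d).2 ⟨hd, h1⟩, le_rfl⟩
    · obtain ⟨c, hc, hc2⟩ := ih (T.par d) (T.lt_par d hd) h1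
      exact ⟨c, hc, le_trans (T.lt_par d hd).le hc2⟩

theorem unique_kid (T : MNT.Tree V) (v d c c' : V) (hc : c ∈ T.kids v) (hc' : c' ∈ T.kids v)
    (h : d ≤ c) (h' : d ≤ c') : c = c' := by
  have key : ∀ x y : V, x ∈ T.kids v → y ∈ T.kids v → x ≤ y → x = y := by
    intro x y hx hy hxy
    rcases eq_or_lt_of_le hxy with h1 | h1
    · exact h1
    · exfalso
      have h2 := T.par_le x y h1
      rw [((mem_kids T v x).1 hx).2] at h2
      exact absurd (kid_lt T hy) (not_lt_of_ge h2)
  rcases chain T d c c' h h' with h1 | h1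
  · exact key c c' hc hc' h1
  · exact (key c' c hc' hc h1).symm

/-- (F1) -/
theorem sum_lt (T : MNT.Tree V) (v : V) (f : V → ℝ) :
    ∑ d with d < v, f d = ∑ c ∈ T.kids v, ∑ d with d ≤ c, f d := by
  rw [← Finset.sum_biUnion]
  · refine Finset.sum_congr ?_ (fun _ _ => rfl)
    ext d
    rw [Finset.mem_filter, Finset.mem_biUnion]
    constructor
    · rintro ⟨-, h⟩
      obtain ⟨c, hc, hc2⟩ := exists_kid T v d h
      exact ⟨c, hc, Finset.mem_filter.2 ⟨Finset.mem_univ _, hc2⟩⟩
    · rintro ⟨c, hc, hc2⟩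
      exact ⟨Finset.mem_univ _, lt_of_le_of_lt (Finset.mem_filter.1 hc2).2 (kid_lt T hc)⟩
  · intro c hc c' hc' hne
    rw [Function.onFun, Finset.disjoint_left]
    intro d hd hd'
    exact hne (unique_kid T v d c c' hc hc' (Finset.mem_filter.1 hd).2
      (Finset.mem_filter.1 hd').2)

omit [OrderTop V] in
theorem sum_le (v : V) (f : V → ℝ) : ∑ d with d ≤ v, f d = f v + ∑ d with d < v, f d := by
  have h1 : (Finset.univ.filter fun d => d ≤ v) = insert v (Finset.univ.filter fun d => d < v) := by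
    ext d
    rw [Finset.mem_insert, Finset.mem_filter, Finset.mem_filter]
    constructor
    · rintro ⟨-, h⟩
      rcases eq_or_lt_of_le h with h1 | h1
      · exact Or.inl h1
      · exact Or.inr ⟨Finset.mem_univ _, h1⟩
    · rintro (h | ⟨-, h⟩)
      · exact ⟨Finset.mem_univ _, h.le⟩
      · exact ⟨Finset.mem_univ _, h.le⟩
  rw [h1, Finset.sum_insert]
  rw [Finset.mem_filter]
  exact fun h => lt_irrefl v h.2

omit [OrderTop V] in
theorem sum_split (v : V) (f : V → ℝ) :
    ∑ d with d ≤ v, f d + ∑ d with ¬ d ≤ v, f d = ∑ d, f d :=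
  Finset.sum_filter_add_sum_filter_not _ _ _

/-- (F2) -/
theorem sum_not_le (T : MNT.Tree V) (c : V) (hc : c ≠ ⊤) (f : V → ℝ) :
    ∑ d with ¬ d ≤ c, f d = f (T.par c) +
      ∑ d' ∈ (T.kids (T.par c)).erase c, ∑ d with d ≤ d', f d +
      ∑ d with ¬ d ≤ T.par c, f d := by
  have h1 := sum_split c f
  have h2 := sum_split (T.par c) f
  rw [sum_le (T.par c) f, sum_lt T (T.par c) f] at h2
  have h3 : c ∈ T.kids (T.par c) := (mem_kids T _ c).2 ⟨hc, rfl⟩
  have h4 := Finset.add_sum_erase (T.kids (T.par c)) (fun c => ∑ d with d ≤ c, f d) h3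
  linarith

/-- the branch -/
theorem branch (g m : ℕ) (A : ℝ) (T : MNT.Tree V) (a b : V → ℕ) (l s r q U : V → ℝ)
    (hH : ∀ c, c ≠ ⊤ → hh l s r c =
      s c * l c / (s c + l c) + (s c / (s c + l c)) ^ 2 * hh l s r (T.par c))
    (v c : V) (hc : c ∈ T.kids v)
    (hI : ∑ d with d < c, l d * w1 g m A (a d) (b d) - A * ∑ d with d ≤ c, rho T b d * hh l s r d =
      U c - A * q c * hh l s r c) :
    ∑ d with d ≤ c, l d * w1 g m A (a d) (b d) - A * ∑ d with d ≤ c, rho T b d * hh l s r d =
      YD g m A a b l s q U c - A * ((s c / (s c + l c)) ^ 2 * q c) * hh l s r v := by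
  obtain ⟨h1, h2⟩ := (mem_kids T v c).1 hc
  have h3 := hH c h1
  rw [h2] at h3
  rw [sum_le c (fun d => l d * w1 g m A (a d) (b d))]
  have h4 : A * q c * hh l s r c = A * q c * (s c * l c / (s c + l c) +
      (s c / (s c + l c)) ^ 2 * hh l s r v) := by rw [← h3]
  unfold YD
  rw [h4] at hI
  linarith

/-- IDD: the identity for everything below `v`. -/
theorem idd (hHHC : HhcStmt) : IddStmt := by
  intro g m A V _ _ _ T G a b l s r q U hl hLa hRes hDn v
  have hH : ∀ c, c ≠ ⊤ → hh l s r c =
      s c * l c / (s c + l c) + (s c / (s c + l c)) ^ 2 * hh l s r (T.par c) :=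
    fun c hc => (hHHC V T G l s r hl hLa.top hRes c hc).1
  induction v using (wellFounded_lt (α := V)).induction with
  | _ v ih =>
    have h1 : ∀ c ∈ T.kids v,
        ∑ d with d ≤ c, l d * w1 g m A (a d) (b d) -
          A * ∑ d with d ≤ c, rho T b d * hh l s r d =
        YD g m A a b l s q U c - A * ((s c / (s c + l c)) ^ 2 * q c) * hh l s r v :=
      fun c hc => branch g m A T a b l s r q U hH v c hc (ih c (kid_lt T hc))
    rw [sum_le v (fun d => rho T b d * hh l s r d), sum_lt T v, sum_lt T v]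
    have h2 := Finset.sum_congr rfl h1
    rw [Finset.sum_sub_distrib, Finset.sum_sub_distrib, ← Finset.mul_sum, ← hDn.U_eq v,
      ← Finset.sum_mul, ← Finset.mul_sum] at h2
    have h3 := hDn.q_eq v
    have h4 : ∑ c ∈ T.kids v, (s c / (s c + l c)) ^ 2 * q c = q v - rho T b v := by
      rw [h3]
      ring
    rw [h4] at h2
    linarith

/-- IDU: the identity for everything which is not below `c`. -/
theorem idu (hHHC : HhcStmt) (hIDD : IddStmt) : IduStmt := by
  intro g m A V _ _ _ T G a b l s r q U p Z hl hLa hRes hDn hUw c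
  have hH := hHHC V T G l s r hl hLa.top hRes
  have hI := hIDD g m A V T G a b l s r q U hl hLa hRes hDn
  induction c using (wellFounded_gt (α := V)).induction with
  | _ c ih =>
    intro hc
    have hF : ∀ x : V, ∑ d with d ≠ ⊤ ∧ ¬ d ≤ x, l d * w1 g m A (a d) (b d) =
        ∑ d with ¬ d ≤ x, (if d = ⊤ then 0 else l d * w1 g m A (a d) (b d)) := by
      intro x
      rw [Finset.sum_filter, Finset.sum_filter]
      refine Finset.sum_congr rfl (fun d _ => ?_)
      by_cases h1 : d = ⊤
      · rw [if_neg (fun h => h.1 h1), if_pos h1]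
        split_ifs <;> rfl
      · by_cases h2 : d ≤ x
        · rw [if_neg (fun h => h.2 h2), if_neg (not_not.2 h2)]
        · rw [if_pos ⟨h1, h2⟩, if_pos h2, if_neg h1]
    have hF2 : ∀ d' ∈ (T.kids (T.par c)).erase c,
        ∑ d with d ≤ d', (if d = ⊤ then 0 else l d * w1 g m A (a d) (b d)) =
        ∑ d with d ≤ d', l d * w1 g m A (a d) (b d) := by
      intro d' hd'
      refine Finset.sum_congr rfl (fun d hd => ?_)
      have h1 : d' ≠ ⊤ := ((mem_kids T _ d').1 (Finset.mem_of_mem_erase hd')).1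
      have h2 : d ≠ ⊤ := fun h => h1 (top_le_iff.1 (by
        rw [← h]
        exact (Finset.mem_filter.1 hd).2))
      rw [if_neg h2]
    have hB : ∀ d' ∈ (T.kids (T.par c)).erase c,
        ∑ d with d ≤ d', l d * w1 g m A (a d) (b d) -
          A * ∑ d with d ≤ d', rho T b d * hh l s r d =
        YD g m A a b l s q U d' -
          A * ((s d' / (s d' + l d')) ^ 2 * q d') * hh l s r (T.par c) := by
      intro d' hd'
      exact branch g m A T a b l s r q U (fun c hc => (hH c hc).1) (T.par c) d'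
        (Finset.mem_of_mem_erase hd') (hI d')
    have h2 := Finset.sum_congr rfl hB
    rw [Finset.sum_sub_distrib, Finset.sum_sub_distrib, ← Finset.mul_sum,
      ← Finset.sum_mul, ← Finset.mul_sum] at h2
    rw [hF, sum_not_le T c hc, sum_not_le T c hc (fun d => rho T b d * hh l s r d),
      Finset.sum_congr rfl hF2]
    have hp := hUw.p_eq c hc
    have hZ := hUw.Z_eq c hc
    by_cases hv : T.par c = ⊤
    · rw [if_pos hv, add_zero] at hp hZ
      have h3 : (Finset.univ.filter fun d => ¬ d ≤ T.par c) = ∅ := by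
        rw [Finset.filter_eq_empty_iff]
        intro d _
        rw [hv]
        exact not_not.2 le_top
      rw [h3, Finset.sum_empty, Finset.sum_empty, if_pos hv, hp, hZ]
      linarith
    · rw [if_neg hv] at hp hZ ⊢
      have h3 := ih (T.par c) (T.lt_par c hc) hv
      rw [hF] at h3
      have h4 := (hH (T.par c) hv).2
      have h5 : A * p (T.par c) * hh l s r (T.par (T.par c)) = A * p (T.par c) *
          (r (T.par c) * l (T.par c) / (r (T.par c) + l (T.par c)) +
            (r (T.par c) / (r (T.par c) + l (T.par c))) ^ 2 * hh l s r (T.par c)) := by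
        rw [← h4]
      rw [h5] at h3
      rw [hp, hZ]
      unfold YU
      linarith

end Pool.Agent.MNW.H49
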